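import Pool.Agent.MP_3ee8cb_gt.D3NP.KSpec

/-! One chart domain for the punctured space. -/

namespace Pool.Agent.MP_3ee8cb_gt.CZ

open Set Filter Topology D3
open D3GB (bv)

/-- `K` maps the open cylinder `Om` onto the punctured space, `Om0` bijectively; the last
coordinate is the logarithm of the norm. -/
structure Atl (K : V → V) (Om Om0 : Set V) : Prop where
  op : IsOpen Om
  ms : MeasurableSet Om0
  sub : Om0 ⊆ Om
  cyl : ∀ u ∈ Om, ∀ s : ℝ, u + s • bv 2 ∈ Om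
  cyl0 : ∀ u ∈ Om0, ∀ s : ℝ, u + s • bv 2 ∈ Om0
  tr : ∀ u (s : ℝ), K (u + s • bv 2) = Real.exp s • K u
  nrm : ∀ u ∈ Om, ‖K u‖ = Real.exp (u 2)
  lip : LocallyLipschitzOn Om K
  opn : ∀ u ∈ Om, map K (𝓝 u) = 𝓝 (K u)
  inj : ∀ u ∈ Om, ∃ U ∈ 𝓝 u, InjOn K U
  bij : BijOn K Om0 {q | q ≠ 0}
  cpt : ∀ T : ℝ, ∃ Q, IsCompact Q ∧ Q ⊆ Om ∧ ∀ u ∈ Om0, |u 2| ≤ T → u ∈ Q

/-- The slab over which functions of the ray are integrated. -/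
def Sl (Om0 : Set V) : Set V := {u ∈ Om0 | u 2 ∈ Icc (0 : ℝ) 1}

end Pool.Agent.MP_3ee8cb_gt.CZ
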