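import Pool.Agent.MP_3ee8cb_gt.CZ.Defs
import Pool.Agent.MP_3ee8cb_gt.CZ.Atl
import Pool.Agent.MP_3ee8cb_gt.CZL.Spec
import Pool.Agent.MP_3ee8cb_gt.CZK.Spec
import Pool.Agent.MP_3ee8cb_gt.CZH.Spec

/-! Continuous conjugacies in dimension three: the statements of the blocks. -/

namespace Pool.Agent.MP_3ee8cb_gt.CZ

open Set Filter Topology MeasureTheory D3
open CR (Met UT ng MinP)
open CZO (C0F Gd WF Foc)
open CZL (LIPF)
open CZT (TS Sw)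
open D3AR (un)
open D3GB (trip bv)
open D3MO (S2)
open D3NB (Ph XX)
open D3NP (Cc Rr Tm jc dv)
open scoped RealInnerProductSpace ENNReal

noncomputable section

/-! ### From metrics to frames -/

def SCF0 : Prop := On2 fun g h C C' Γ Λ _ _ _ _ Φ Ψ ρ F => ∀ (m m' : MF) O O', m.OK → m.Jac →
  m'.OK → m'.Jac → Lk g C Φ m → Lk h C' Ψ m' → Act m Γ O → Act m' Λ O' →
  (∀ p, F (ng p) = ng (F p)) → ∃ φ, C0F m m' φ ∧ Eqv ρ O O' φ ∧ Rep m m' F φ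

/-- The flip. -/
def Flp (φ : V × V → V × V) : Prop := ∀ x q, q ≠ 0 → φ (x, -q) = ((φ (x, q)).1, -(φ (x, q)).2)

def SLIP : Prop := OnR fun _ _ m m' φ a => LIPF m m' φ a

/-- A statement about a map with the two point inequalities. -/
def OnL (P : MF → MF → (V × V → V × V) → ℝ → Prop) : Prop :=
  ∀ (m m' : MF) (φ : V × V → V × V) (a : ℝ), m.OK → m.Jac → m'.OK → m'.Jac → C0F m m' φ →
    Flp φ → 0 < a → LIPF m m' φ a → P m m' φ a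

def SGDA : Prop := OnL fun m m' φ a => ∀ᵐ z : V × V, Gd m m' φ a (z.1, ‖z.2‖⁻¹ • z.2)

def SATL : Prop := OnL fun _ m' φ a => ∀ x, ∃ κ Om Om0, Atl (CZK.Km κ) Om Om0 ∧
  Geo m' (fr φ x) a (CZK.Km κ) Om

/-! ### The Busemann family -/

/-- The geodesic of `q`. -/
def cc (m : MF) (σ : V → V × V) (q : S2) (t : ℝ) : V := (m.Z t (σ q.1)).1

def bS (b : V × V → V → ℝ) (σ : V → V × V) (z : V) (q : S2) : ℝ := bet b σ (z, q.1)

def bT (b : V × V → V → ℝ) (σ : V → V × V) (z : V) (q : S2) : ℝ := -bet b σ (z, -q.1)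

/-- The descent map `T` and the gradient `G`, in the frame. -/
structure Tx (m : MF) (σ : V → V × V) (b : V × V → V → ℝ) (T : V → S2 → S2) (G : V → S2 → V) :
    Prop where
  ts : TS (bS b σ) (bT b σ) T
  hom : ∀ z q (r : ℝ), 0 < r → bet b σ (z, r • q) = bet b σ (z, q)
  cG : Continuous fun x : V × S2 => G x.1 x.2
  unit : ∀ z q, ‖G z q‖ = 1
  der : ∀ z q, HasFDerivAt (fun y => bS b σ y q) ((innerSL ℝ (G z q)).comp (m.S z)) z
  on : ∀ q t, G (cc m σ q t) q = (m.Z t (σ q.1)).2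
  inj : ∀ z, Function.Injective (G z)
  val : ∀ q t, bS b σ (cc m σ q t) q = t
  crit : ∀ z q, bT b σ z q = bS b σ z q → cc m σ q (bS b σ z q) = z
  far : ∀ p q, q ≠ p → ∃ t, bT b σ (cc m σ p t) q < t

def STM : Prop := OnR fun _ Ψ _ m' φ _ => ∀ b, Bs Ψ m' b → ∀ x, ∃ T G, Tx m' (fr φ x) b T G

/-- The plane of the first two coordinates. -/
def io : ℝ × ℝ →L[ℝ] V := (ContinuousLinearMap.fst ℝ ℝ ℝ).smulRight (bv 0) +
  (ContinuousLinearMap.snd ℝ ℝ ℝ).smulRight (bv 1)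

/-- The form `nf` on the plane. -/
def Hf (m : MF) (P : V → V × V) (u : V) : ℝ × ℝ →L[ℝ] ℝ × ℝ →L[ℝ] ℝ :=
  (-(1 / 2) : ℝ) • (innerSL ℝ : V →L[ℝ] V →L[ℝ] ℝ).bilinearComp ((Av m P u).comp io)
    ((Ah m P u).comp io)

/-- The form separates the two Busemann functions at every regular point. -/
def SwA (m : MF) (σ : V → V × V) (b : V × V → V → ℝ) (K : V → V) (Om : Set V) : Prop :=
  ∀ u ∈ Om, DifferentiableAt ℝ (PK m σ K) u → dl m (PK m σ K) u ≠ 0 → ∀ κ : ℝ × ℝ → S2,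
    (∀ᶠ e in 𝓝 (0 : ℝ × ℝ), (κ e).1 = un (K (u + io e))) →
      Sw (bS b σ (PK m σ K u).1) (bT b σ (PK m σ K u).1) κ (κ 0) (Hf m (PK m σ K) u)

def SSW : Prop := OnR fun _ Ψ _ m' φ a => ∀ b, Bs Ψ m' b → ∀ x K Om Om0, Atl K Om Om0 →
  Geo m' (fr φ x) a K Om → SwA m' (fr φ x) b K Om

/-! ### One front -/

/-- All data of one front. -/
structure Dat (m : MF) (lg : V × V → V) (σ : V → V × V) (a hi : ℝ) (b : V × V → V → ℝ)
    (T : V → S2 → S2) (G : V → S2 → V) (K : V → V) (Om Om0 : Set V) : Prop where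
  ok : m.OK
  jac : m.Jac
  c2 : ContDiff ℝ 2 m.om
  a0 : 0 < a
  up : m.Up (a ^ 2)
  dn : m.Dn hi
  had : m.Had lg
  km : ∃ κ, K = CZK.Km κ
  atl : Atl K Om Om0
  geo : Geo m σ a K Om
  tx : Tx m σ b T G
  sw : SwA m σ b K Om

/-- A statement about one front. -/
def OnD (P : MF → (V → V × V) → (V × V → V → ℝ) → (V → V) → Set V → Set V → Prop) : Prop :=
  ∀ m lg σ a hi b T G K Om Om0, Dat m lg σ a hi b T G K Om Om0 → P m σ b K Om Om0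

/-- The form is positive definite: a minimum. -/
def Mn (m : MF) (P : V → V × V) (u : V) : Prop := ∀ e : V, e 2 = 0 → e ≠ 0 → 0 < nf m P u e

/-- The form is negative definite: a maximum. -/
def Mx (m : MF) (P : V → V × V) (u : V) : Prop := ∀ e : V, e 2 = 0 → e ≠ 0 → nf m P u e < 0

/-- Facts at a point of differentiability. -/
structure Pw (m : MF) (P : V → V × V) (u : V) : Prop where
  dif : ∀ s : ℝ, DifferentiableAt ℝ P (u + s • bv 2)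
  jh : ∀ (s : ℝ) (e : V), e 2 = 0 → Ah m P (u + s • bv 2) e = m.J (P u) (fderiv ℝ P u e) s
  jv : ∀ (s : ℝ) (e : V), e 2 = 0 → Av m P (u + s • bv 2) e = m.J' (P u) (fderiv ℝ P u e) s
  vf : fderiv ℝ P u (bv 2) = m.vf (P u)
  leg : ∀ e, ⟪(P u).2, Ah m P u e⟫ = e 2
  per : ∀ e, ⟪(P u).2, Av m P u e⟫ = 0
  sym : ∀ e e' : V, e 2 = 0 → e' 2 = 0 → ⟪Av m P u e, Ah m P u e'⟫ = ⟪Ah m P u e, Av m P u e'⟫
  yd : ∀ t : ℝ, HasDerivAt (fun s : ℝ => yy m P (u + s • bv 2))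
    (dv (fun v => (P v).1) (fun v => XX m (P v).1 (P v).2) (u + t • bv 2)) t
  jc : (m.S (P u).1).det * jc (fun v => (P v).1) u = dl m P u
  anti : ∀ e : V, e 2 = 0 → e ≠ 0 → StrictAnti fun s : ℝ => nf m P (u + s • bv 2) e
  dp : 0 < dl m P u → Mn m P u ∨ Mx m P u
  dm : dl m P u < 0 → ∃ e e' : V, e 2 = 0 ∧ e' 2 = 0 ∧ 0 < nf m P u e ∧ nf m P u e' < 0
  zer : {s : ℝ | dl m P (u + s • bv 2) = 0}.Finite

def SPT : Prop := OnD fun m σ _ K Om _ => ∀ u ∈ Om,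
  (‖(PK m σ K u).2‖ = 1 ∧ ∀ s : ℝ, PK m σ K (u + s • bv 2) = m.Z s (PK m σ K u)) ∧
    (DifferentiableAt ℝ (PK m σ K) u → Pw m (PK m σ K) u)

/-- Minima and merging saddles, in the chart. -/
def Zs (m : MF) (σ : V → V × V) (b : V × V → V → ℝ) (K : V → V) (Om0 : Set V) : Set V :=
  {u ∈ Om0 | DifferentiableAt ℝ (PK m σ K) u ∧ dl m (PK m σ K) u ≠ 0 ∧
    Rr (Cc m σ) (bet b σ) (K u)}

def SZM : Prop := OnD fun m σ b K _ Om0 => MeasurableSet (Zs m σ b K Om0)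

def SRAY : Prop := OnD fun m σ b K _ Om0 => ∀ u ∈ Zs m σ b K Om0, ∀ s : ℝ, s ≤ 0 →
  dl m (PK m σ K) (u + s • bv 2) ≠ 0 → u + s • bv 2 ∈ Zs m σ b K Om0

def STY : Prop := OnD fun m σ b K _ Om0 => ∀ u ∈ Om0, DifferentiableAt ℝ (PK m σ K) u →
  (Mn m (PK m σ K) u → u ∈ Zs m σ b K Om0 ∧
    ∀ p : S2, p.1 = un (K u) → D3NP.Mi (bS b σ (PK m σ K u).1) p) ∧
  (Mx m (PK m σ K) u → u ∉ Zs m σ b K Om0 ∧
    ∀ p : S2, p.1 = -un (K u) → D3NP.Mi (bS b σ (PK m σ K u).1) p) ∧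
  ((∃ e : V, e 2 = 0 ∧ nf m (PK m σ K) u e < 0) →
    ∃ t₀, ∀ t : ℝ, t₀ ≤ t → u + t • bv 2 ∉ Zs m σ b K Om0)

/-- Almost every function of the family is tame. -/
def SGZ : Prop := OnD fun m σ b K _ Om0 => ∀ᵐ z : V, ∃ Cr : Finset S2, Tm (bS b σ z) Cr ∧
  ∀ q ∈ Cr, ∃ u ∈ Om0, DifferentiableAt ℝ (PK m σ K) u ∧ dl m (PK m σ K) u ≠ 0 ∧
    (PK m σ K u).1 = z ∧ q.1 = un (K u)

/-- The inequality for the curvature form. -/
def SPZ : Prop := OnD fun m σ b K _ Om0 => ∀ ζ : V → ℝ, ContDiff ℝ 1 ζ → (∀ z, 0 ≤ ζ z) →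
  HasCompactSupport ζ → IntegrableOn (CZH.dw m (PK m σ K) ζ) (Zs m σ b K Om0) ∧
    ∫ u in Zs m σ b K Om0, CZH.dw m (PK m σ K) ζ u ≤ 0

/-- Gauss-Bonnet. -/
def SGB : Prop := OnD fun m σ _ K Om Om0 => ∀ (ζ : V → ℝ) (R : ℝ),
  LocallyLipschitzOn Om (fun u => ζ (K u)) → (∀ q, q ≠ 0 → Real.log ‖q‖ ≤ -R → ζ q = 0) →
  (∀ q, q ≠ 0 → R ≤ Real.log ‖q‖ → ζ q = 1) →
    IntegrableOn (CZH.eul m (PK m σ K) fun u => ζ (K u)) Om0 ∧
      ∫ u in Om0, CZH.eul m (PK m σ K) (fun u => ζ (K u)) u ≤ sph fun _ => 1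

/-- The strong fibre inequality. -/
def SFIBS : Prop := OnD fun m σ b K _ Om0 => ∀ g : V → ℝ≥0∞,
  (∀ᵐ u : V, u ∈ Sl Om0 → g u ≠ 0 → ∃ τ : ℝ,
    (∀ᵐ t : ℝ, u + t • bv 2 ∈ Zs m σ b K Om0 ↔ t < τ) ∧
      g u ≤ ENNReal.ofReal (yy m (PK m σ K) (u + τ • bv 2))) →
  ∫⁻ u in Sl Om0, g u ≤ (volume : Measure V).toSphere univ

/-- The abstract family of a front. -/
structure Br (m : MF) (σ : V → V × V) (b : V × V → V → ℝ) (K : V → V) (Om Om0 : Set V)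
    (d : CZK.FD) : Prop where
  ok : d.OK
  om : d.Om = Om
  om0 : d.Om0 = Om0
  km : K = CZK.Km d.κ
  gd : d.Gd = {u ∈ Om0 | DifferentiableAt ℝ (PK m σ K) u}
  c : d.C = Cc m σ
  th : d.θ = D3NP.th m σ
  be : d.β = bS b σ
  bs : d.βs = bT b σ
  H : d.H = Hf m (PK m σ K)
  eps : ∀ z, 0 < d.ε * (m.S z).det
  rs : d.Rs = Zs m σ b K Om0

def SFD : Prop := OnD fun m σ b K Om Om0 => ∃ d, Br m σ b K Om Om0 d

/-! ### The end -/

/-- A statement about one fibre of a conjugacy. -/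
def OnX (P : MF → MF → (V × V → V × V) → ℝ → V → Prop) : Prop :=
  ∀ (m m' : MF) (φ : V × V → V × V) lg a hi b T G K Om Om0 x, m.OK → m.Jac → C0F m m' φ →
    Dat m' lg (fr φ x) a hi b T G K Om Om0 → P m m' φ a x

def SWF : Prop := OnX fun m m' φ a x => WF m m' φ a x

def SEN : Prop := OnX fun m m' φ a x =>
  (∀ᵐ q : Metric.sphere (0 : V) 1 ∂(volume : Measure V).toSphere,
    Gd m m' φ a (x, q) ∧ Foc m' φ x q) →
  ∀ q q' : V, ‖q‖ = 1 → ‖q'‖ = 1 → (φ (x, q)).1 = (φ (x, q')).1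

/-! ### Rows -/

def R_FD : Prop := SPT → SFD
def R_ZM : Prop := SFD → CZK.SBOR → SZM
def R_RAY : Prop := SPT → SFD → CZK.SDOWN → SRAY
def R_TY : Prop := SPT → SFD → CZK.STYP → CZK.SFIN → STY
def R_GZ : Prop := SPT → SFD → CZK.STAME → CZK.SGOOD → SGZ
def R_PZ : Prop := SPT → SFD → CZK.SPOS → SPZ
def R_GB : Prop := SPT → SGB
def R_FIBS : Prop := SPT → SZM → SRAY → STY → SPZ → SGB → CZH.SFIBS → SFIBS
def R_WF : Prop := SPT → SZM → SRAY → STY → CZO.SGROW → SFIBS → SWF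
def R_EN : Prop := SPT → SFD → SZM → SRAY → STY → SGZ → CZO.SGROW → SFIBS → SEN

/-- Rigidity under a continuous conjugacy. -/
def MainZ : Prop := On2 fun g h _ C' _ _ _ _ _ _ _ _ ρ _ => ∀ a hi, 0 < a → ContDiff ℝ 3 h →
  Pin h C' (a ^ 2) hi → Iso g h ρ

end

end Pool.Agent.MP_3ee8cb_gt.CZ
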