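import Pool.Agent.MP_3ee8cb_gt.CZO.Spec
import Pool.Agent.MP_3ee8cb_gt.D3SC.Cf
import Pool.Agent.MP_3ee8cb_gt.D3NP.GSpec

/-! Continuous conjugacies in dimension three: geometric definitions. -/

namespace Pool.Agent.MP_3ee8cb_gt.CZ

open Set Filter Topology MeasureTheory D3
open CR (Met UT ng MinP bus)
open CZO (C0F)
open D3AR (un)
open D3GB (trip bv)
open D3NB (Ph XX)
open scoped RealInnerProductSpace

noncomputable section

/-- `φ` is `F` read in the frames. -/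
def Rep {g h : Met 3} (m m' : MF) (F : UT g → UT h) (φ : V × V → V × V) : Prop :=
  ∀ r p, r ≠ 0 → φ (SC.dn m r p) = SC.dn m' r (F p)

/-- `b` is the Busemann function read in the frame. -/
def Bs {h : Met 3} (Ψ : ℝ → UT h → UT h) (m : MF) (b : V × V → V → ℝ) : Prop :=
  ∀ r p z, 0 < r → b (SC.dn m r p) z = bus h Ψ p z

/-- A statement about a flip equivariant conjugacy read in frames. -/
def OnR (P : ∀ (h : Met 3) (_ : ℝ → UT h → UT h), MF → MF → (V × V → V × V) → ℝ → Prop) : Prop :=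
  On2 fun g h C C' _ _ _ _ _ _ Φ Ψ _ F => ∀ (a : ℝ) (m m' : MF) (φ : V × V → V × V), 0 < a →
    TB.CurvLe h a → m.OK → m.Jac → m'.OK → m'.Jac → Lk g C Φ m → Lk h C' Ψ m' → MinP g Φ →
    (∀ p, F (ng p) = ng (F p)) → Rep m m' F φ → C0F m m' φ → P h Ψ m m' φ a

/-- The two geodesic inequality and the contact property, for finite differences. -/
structure Lp (m m' : MF) (φ : V × V → V × V) (a : ℝ) : Prop where
  two : ∀ z : V × V, ‖z.2‖ = 1 → ∃ c : ℝ, 0 < c ∧ ∀ ε : ℝ, 0 < ε → ∃ C : ℝ,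
    ∀ᶠ p : (V × V) × V × V in 𝓝 (z, z), ‖p.1.2‖ = 1 → ‖p.2.2‖ = 1 →
      c * ‖p.2.2 - p.1.2‖ ^ 2 + a ^ 2 * ‖m'.hor (φ z) (φ p.2 - φ p.1)‖ ^ 2 ≤
        (1 + ε) * ‖m'.ver (φ z) (φ p.2 - φ p.1)‖ ^ 2 + C * ‖p.2.1 - p.1.1‖ ^ 2
  con : ∀ z : V × V, ‖z.2‖ = 1 → ∃ C : ℝ,
    ∀ᶠ p : (V × V) × V × V in 𝓝 (z, z), ‖p.1.2‖ = 1 → ‖p.2.2‖ = 1 →
      |⟪(φ p.1).2, m'.hor (φ p.1) (φ p.2 - φ p.1)⟫ - ⟪p.1.2, m.hor p.1 (p.2 - p.1)⟫| ≤
        C * (‖p.2 - p.1‖ ^ 2 + ‖φ p.2 - φ p.1‖ ^ 2)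

/-- The same at all times. -/
def LpA (m m' : MF) (φ : V × V → V × V) (a : ℝ) : Prop :=
  ∀ t, Lp m m' (fun z => m'.Z t (φ z)) a

/-- The moving front in the chart `K`. -/
def PK (m : MF) (σ : V → V × V) (K : V → V) (u : V) : V × V := Ph m σ (K u)

/-- The horizontal derivative. -/
def Ah (m : MF) (P : V → V × V) (u : V) : V →L[ℝ] V := (m.hor (P u)).comp (fderiv ℝ P u)

/-- The vertical derivative. -/
def Av (m : MF) (P : V → V × V) (u : V) : V →L[ℝ] V := (m.ver (P u)).comp (fderiv ℝ P u)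

/-- `det A'`. -/
def yy (m : MF) (P : V → V × V) (u : V) : ℝ := trip (P u).2 (Av m P u (bv 0)) (Av m P u (bv 1))

/-- `det A`. -/
def dl (m : MF) (P : V → V × V) (u : V) : ℝ := trip (P u).2 (Ah m P u (bv 0)) (Ah m P u (bv 1))

/-- The form `-⟪A' e, A e⟫ / 2`. -/
def nf (m : MF) (P : V → V × V) (u e : V) : ℝ := -⟪Av m P u e, Ah m P u e⟫ / 2

/-- The Euler density paired with the differential of `ζ`, along the front. -/
def eu (m : MF) (P : V → V × V) (ζ : V → ℝ) (u : V) : ℝ :=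
  fderiv ℝ ζ u (bv 2) * yy m P u -
    (fderiv ℝ ζ u (bv 0) * trip (XX m (P u).1 (P u).2) (fderiv ℝ P u (bv 1)).1
        (fderiv ℝ P u (bv 2)).1 +
      fderiv ℝ ζ u (bv 1) * trip (XX m (P u).1 (P u).2) (fderiv ℝ P u (bv 2)).1
        (fderiv ℝ P u (bv 0)).1 +
      fderiv ℝ ζ u (bv 2) * trip (XX m (P u).1 (P u).2) (fderiv ℝ P u (bv 0)).1
        (fderiv ℝ P u (bv 1)).1)

/-- A Lipschitz front in the chart `K` on `Om`. -/
structure Geo (m : MF) (σ : V → V × V) (a : ℝ) (K : V → V) (Om : Set V) : Prop where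
  c0 : ContinuousOn σ {q | q ≠ 0}
  hom : ∀ (r : ℝ) q, r ≠ 0 → q ≠ 0 → σ (r • q) = ((σ q).1, r • (σ q).2)
  norm : ∀ q, q ≠ 0 → ‖(σ q).2‖ = ‖q‖
  lip : LocallyLipschitzOn Om (PK m σ K)
  inv : ∀ u ∈ Om, ∃ L : V × V → V, ContDiff ℝ 1 L ∧
    ∀ᶠ v in 𝓝 u, L (σ (un (K v))) = v - v 2 • bv 2
  con : ∀ u ∈ Om, ∃ C : ℝ, ∀ᶠ p : V × V in 𝓝 (u, u), p.1 2 = u 2 → p.2 2 = u 2 →
    |⟪(PK m σ K p.1).2, m.hor (PK m σ K p.1) (PK m σ K p.2 - PK m σ K p.1)⟫| ≤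
      C * ‖p.2 - p.1‖ ^ 2
  dia : ∀ u ∈ Om, DifferentiableAt ℝ (PK m σ K) u → ∀ e : V, e 2 = 0 →
    a * ‖Ah m (PK m σ K) u e‖ ≤ ‖Av m (PK m σ K) u e‖
  pos : ∀ u ∈ Om, DifferentiableAt ℝ (PK m σ K) u → 0 < yy m (PK m σ K) u

/-- The family of backward Busemann functions of the front. -/
def bet (b : V × V → V → ℝ) (σ : V → V × V) (x : V × V) : ℝ := b ((σ x.2).1, -(σ x.2).2) x.1

end

end Pool.Agent.MP_3ee8cb_gt.CZ
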