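import Pool.Agent.MP_3ee8cb_gt.CZ.Top
import Pool.Agent.MP_3ee8cb_gt.CZQ.Lip
import Pool.Agent.MP_3ee8cb_gt.CZQ.RPZ
import Pool.Agent.MP_3ee8cb_gt.CZL.Row
import Pool.Agent.MP_3ee8cb_gt.CZI.RATL
import Pool.Agent.MP_3ee8cb_gt.CZM.RSTM
import Pool.Agent.MP_3ee8cb_gt.CZM.RFD
import Pool.Agent.MP_3ee8cb_gt.CZS.Sw
import Pool.Agent.MP_3ee8cb_gt.CZS.Ray
import Pool.Agent.MP_3ee8cb_gt.CZP.Rows
import Pool.Agent.MP_3ee8cb_gt.CZP.En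
import Pool.Agent.MP_3ee8cb_gt.CZP.Wf
import Pool.Agent.MP_3ee8cb_gt.CZG.Fin
import Pool.Agent.MP_3ee8cb_gt.CZH.Fibs
import Pool.Agent.MP_3ee8cb_gt.CZF.RFibs
import Pool.Agent.MP_3ee8cb_gt.CZO.Fin
import Pool.Agent.MP_3ee8cb_gt.CZK.RBOR
import Pool.Agent.MP_3ee8cb_gt.CZK.REVT
import Pool.Agent.MP_3ee8cb_gt.CZK.RFUB
import Pool.Agent.MP_3ee8cb_gt.CZK.RGOOD
import Pool.Agent.MP_3ee8cb_gt.CZK.RJC
import Pool.Agent.MP_3ee8cb_gt.CZK.RLINE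
import Pool.Agent.MP_3ee8cb_gt.CZK.RSP30
import Pool.Agent.MP_3ee8cb_gt.CZK.XTop
import Pool.Agent.MP_3ee8cb_gt.D3JC.Out
import Pool.Agent.MP_3ee8cb_gt.D3FL.RFM
import Pool.Agent.MP_3ee8cb_gt.D3FL.RCN
import Pool.Agent.MP_3ee8cb_gt.D3FL.RCV
import Pool.Agent.MP_3ee8cb_gt.D3FL.RGL
import Pool.Agent.MP_3ee8cb_gt.D3FL.RFC
import Pool.Agent.MP_3ee8cb_gt.D3FL.F3
import Pool.Agent.MP_3ee8cb_gt.TB.RGAM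
import Pool.Agent.MP_3ee8cb_gt.TB.RODE
import Pool.Agent.MP_3ee8cb_gt.D3FL.HHAD
import Pool.Agent.MP_3ee8cb_gt.D3FL.HFLP
import Pool.Agent.MP_3ee8cb_gt.D3AC.Act

/-! Rigidity under a continuous conjugacy in dimension three: all blocks together. -/

namespace Pool.Agent.MP_3ee8cb_gt.CZ

open D3

theorem frm : SFRM := D3FL.frm_of TB.gam TB.ode D3FL.fm D3FL.cn D3FL.cv D3FL.gl D3FL.fc

theorem mnp : On1 fun h _ _ _ _ Ψ => ∀ a, 0 < a → TB.CurvLe h a → CR.MinP h Ψ :=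
  fun h _ Λ _ _ Ψ qh _ a ha hc => (LV.hm 3 h Λ Ψ qh a ha fun p q e s t hs ht =>
    mul_assoc (h p.1.1 p.1.2 q.1.2) _ _ ▸ TB.hinge 3 h Λ Ψ a qh.rp ha hc p q e s t hs ht).1

theorem sFD : SFD := CZM.rFD CZS.sPT
theorem sZM : SZM := rZM sFD CZK.bor
theorem sRAY : SRAY := rRAY CZS.sPT sFD CZK.xDOWN
theorem sTY : STY := rTY CZS.sPT sFD CZK.xTYP CZK.xFIN
theorem sGZ : SGZ := rGZ CZS.sPT sFD CZK.xTAME CZK.good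
theorem sPZ : SPZ := rPZ CZS.sPT sFD (CZK.pos30 CZK.bor
  (CZK.sli30 (CZK.evt (CZK.rjc CZK.fub) CZK.good) CZK.xLINE CZK.bor))
theorem sFIBS : SFIBS := rFIBS CZS.sPT sZM sRAY sTY sPZ (CZG.rGB CZS.sPT) CZH.sFIBS

theorem allZ : MainZ := mainZ sJAC frm (D3FL.frm3_of TB.ode D3FL.cn D3FL.cv D3FL.gl D3FL.fc)
  D3FL.had sACT D3FL.flp mnp sEND0 CZQ.sLIP sGDA CZI.satl CZM.rSTM CZS.sSW
  (rWF47 CZS.sPT sZM sRAY sTY CZO.sGROW sFIBS) (rEN47 CZS.sPT sFD sZM sRAY sTY sGZ CZO.sGROW sFIBS)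
  CZO.sODE

end Pool.Agent.MP_3ee8cb_gt.CZ
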