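import Pool.Agent.MP_3ee8cb_gt.CZ.Spec
import Pool.Agent.MP_3ee8cb_gt.CZE.End
import Pool.Agent.MP_3ee8cb_gt.D3.Top

/-! Rigidity under a continuous conjugacy in dimension three, from the blocks. -/

namespace Pool.Agent.MP_3ee8cb_gt.CZ

open Set Filter Topology MeasureTheory D3 D3.SC
open CR (Met UT ng MinP tm bus)
open CZO (C0F)
open scoped RealInnerProductSpace

theorem ext0 {g h : Met 3} {m m' : MF} (hm : m.OK) (ho : Ort g m) (hm' : m'.OK)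
    {F : UT g → UT h} (hF : Continuous F) : ∃ φ : V × V → V × V, ContinuousOn φ {z | z.2 ≠ 0} ∧
      ∀ r p, 0 < r → φ (dn m r p) = dn m' r (F p) := by
  classical
  refine ⟨fun z => if hz : z.2 ≠ 0 then dn m' ‖z.2‖ (F ⟨nu m z, nu_mem ho hz⟩) else 0, ?_,
    fun r p hr => ?_⟩
  · rw [continuousOn_iff_continuous_domRestrict]
    have c1 : Continuous fun z : {z : V × V | z.2 ≠ 0} => (F ⟨nu m z.1, nu_mem ho z.2⟩).1 :=
      continuous_subtype_val.comp (hF.comp (Continuous.subtype_mk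
        (continuous_iff_continuousAt.2 fun z => (nu_cd hm z.2).continuousAt.comp
          continuous_subtype_val.continuousAt) _))
    have c2 : Continuous fun z : {z : V × V | z.2 ≠ 0} => ‖z.1.2‖ := by fun_prop
    refine (c1.fst.prodMk (c2.smul ((hm'.cS.continuous.comp c1.fst).clm_apply c1.snd))).congr
      fun z => ?_
    have hz : z.1.2 ≠ 0 := z.2
    simp only [domRestrict_apply, dif_pos hz]
    rfl
  · have h0 := dn_ne hm ho hr.ne' p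
    have e : (⟨nu m (dn m r p), nu_mem ho h0⟩ : UT g) = p := Subtype.ext (nu_dn hm ho hr p)
    simp only [dif_pos h0]
    rw [e, norm_dn hm ho, abs_of_pos hr]

theorem sCF0 : SCF0 := by
  intro g h C C' Γ Λ _ _ _ _ Φ Ψ ρ F qg _ _ _ _ _ cj m m' O O' hm hj hm' hj' hl hl' ha ha' hn
  have ho : Ort g m := hl.orth
  have ho' : Ort h m' := hl'.orth
  obtain ⟨φ, c1, k0⟩ := ext0 hm ho hm' F.continuous
  have k1 : ∀ r p, r ≠ 0 → φ (dn m r p) = dn m' r (F p) := fun r p hr => by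
    rcases hr.lt_or_gt with h3 | h3
    · rw [← dn_ng, k0 _ _ (neg_pos.2 h3), hn, dn_ng]
    · exact k0 r p h3
  have pos : ∀ {a : V}, a ≠ 0 → 0 < ‖a‖ := fun h => norm_pos_iff.2 h
  refine ⟨φ, ⟨c1, fun r x v hr hv => ?_, fun z hz => ?_, fun t z hz => ?_⟩, fun γ z hz => ?_, k1⟩
  · obtain ⟨p, e⟩ := exists_dn hm ho (z := (x, v)) hv
    have e2 : (x, r • v) = dn m (r * ‖v‖) p := by
      rw [dn, mul_smul]
      exact congrArg (fun z : V × V => (z.1, r • z.2)) e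
    rw [e2, congrArg φ e, k0 _ _ (mul_pos hr (pos hv)), k0 _ _ (pos hv), dn, dn, mul_smul]
  · obtain ⟨p, e⟩ := exists_dn hm ho hz
    rw [congrArg φ e, k0 _ _ (pos hz), norm_dn hm' ho', abs_norm]
  · obtain ⟨p, e⟩ := exists_dn hm ho hz
    obtain ⟨r, hr⟩ : ∃ r, r = ‖z.2‖ := ⟨_, rfl⟩
    have r0 : 0 < r := hr ▸ pos hz
    rw [← hr] at e
    rw [e, Z_dn hj hl, k0 _ _ r0, k0 _ _ r0, Z_dn hj' hl', cj.flow]
  · obtain ⟨p, e⟩ := exists_dn hm ho hz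
    obtain ⟨r, hr⟩ : ∃ r, r = ‖z.2‖ := ⟨_, rfl⟩
    have r0 : 0 < r := hr ▸ pos hz
    rw [← hr] at e
    let q : UT g := ⟨tm γ p.1, (qg.rp.deck.iso γ p.1.1 p.1.2 p.1.2).trans p.2⟩
    rw [e, act_dn ha γ r (q := q) rfl, k0 _ _ r0, k0 _ _ r0, act_dn ha' _ r (cj.equi γ p q rfl)]

theorem Rep.flp {g h : Met 3} {m m' : MF} (hm : m.OK) (ho : Ort g m) {F : UT g → UT h}
    {φ : V × V → V × V} (r : Rep m m' F φ) : Flp φ := fun x q hq => by
  obtain ⟨p, e⟩ := exists_dn hm ho (z := (x, q)) hq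
  have n := norm_ne_zero_iff.2 hq
  have e2 : (x, -q) = dn m (-‖q‖) p := by
    rw [dn, neg_smul]
    exact congrArg (fun z : V × V => (z.1, -z.2)) e
  rw [e2, congrArg φ e, r _ _ (neg_ne_zero.2 n), r _ _ n, dn, dn, neg_smul]

theorem exists_bs {h : Met 3} (Ψ : ℝ → UT h → UT h) {m : MF} (hm : m.OK) (ho : Ort h m) :
    ∃ b, Bs Ψ m b := by
  classical
  refine ⟨fun w z => if hw : w.2 ≠ 0 then bus h Ψ ⟨nu m w, nu_mem ho hw⟩ z else 0,
    fun r p z hr => ?_⟩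
  have h0 := dn_ne hm ho hr.ne' p
  have e : (⟨nu m (dn m r p), nu_mem ho h0⟩ : UT h) = p := Subtype.ext (nu_dn hm ho hr p)
  simp only [dif_pos h0]
  rw [e]

theorem mainZ (jac : SJAC) (frm : SFRM) (frm' : D3FL.SFRM3) (had : SHAD) (act : SACT)
    (flp : SFLP) (mnp : On1 fun h _ _ _ _ Ψ => ∀ a, 0 < a → TB.CurvLe h a → MinP h Ψ)
    (fin : SEND0) (lip : SLIP) (gda : SGDA) (atl : SATL) (tmp : STM) (sw : SSW) (wf : SWF)
    (en : SEN) (ode : CZO.SODE) : MainZ := by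
  intro g h C C' Γ Λ _ _ _ _ Φ Ψ ρ F qg qh cg ch dΓ dΛ cj a hi ha hQ kh
  have kh' : TB.CurvLe h a := ⟨C', ch, fun x u v => (kh x u v).2⟩
  obtain ⟨m, o, l⟩ := frm g C Γ Φ qg cg
  obtain ⟨m', o', l', rg⟩ := frm' h C' Λ Ψ qh ch hQ
  have j := jac m o
  have j' := jac m' o'
  obtain ⟨O, aO⟩ := act g C Γ Φ qg cg m o l dΓ
  obtain ⟨O', aO'⟩ := act h C' Λ Ψ qh ch m' o' l' dΛ
  obtain ⟨lg, hl, -⟩ := had h C' Λ Ψ qh ch m' a o' j' l' ha kh'
  obtain ⟨mn, s, F', -, cj', fl⟩ := flp g h C C' Γ Λ Φ Ψ ρ F qg qh cg ch dΓ dΛ cj a ha kh'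
  obtain ⟨φ, cf, eq, rp⟩ := sCF0 g h C C' Γ Λ Φ Ψ ρ F' qg qh cg ch dΓ dΛ cj' m m' O O' o j o' j'
    l l' aO aO' fl
  have u1 : m'.Up (a ^ 2) := fun y u v => by
    have := (kh y (m'.R y u) (m'.R y v)).2
    rw [(l'.sec o' y u v).1, ← (l'.sec o' y u v).2]
    linarith
  have d1 : m'.Dn hi := fun y u v => by
    have := (kh y (m'.R y u) (m'.R y v)).1
    rw [(l'.sec o' y u v).1, ← (l'.sec o' y u v).2]
    linarith
  have fp := rp.flp o l.orth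
  have L := lip g h C C' Γ Λ Φ Ψ ρ F' qg qh cg ch dΓ dΛ cj' a m m' φ ha kh' o j o' j' l l' mn fl
    rp cf
  obtain ⟨b, hb⟩ := exists_bs Ψ o' l'.orth
  have dat : ∀ x, ∃ T G K Om Om0, Dat m' lg (fr φ x) a hi b T G K Om Om0 := fun x => by
    obtain ⟨κ, Om, Om0, A, Ge⟩ := atl m m' φ a o j o' j' cf fp ha L x
    obtain ⟨T, G, tx⟩ := tmp g h C C' Γ Λ Φ Ψ ρ F' qg qh cg ch dΓ dΛ cj' a m m' φ ha kh' o j o' j'
      l l' mn fl rp cf b hb x
    exact ⟨T, G, _, Om, Om0, o', j', rg.com, ha, u1, d1, hl, ⟨κ, rfl⟩, A, Ge, tx,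
      sw g h C C' Γ Λ Φ Ψ ρ F' qg qh cg ch dΓ dΛ cj' a m m' φ ha kh' o j o' j' l l' mn fl rp cf b
        hb x _ Om Om0 A Ge⟩
  have k := ode m m' φ Γ Λ ρ O O' a o j o' j' cf aO aO' eq (CR.fd 3 g Γ qg.rp.deck) ha u1
    (gda m m' φ a o j o' j' cf fp ha L) (Eventually.of_forall fun x => by
      obtain ⟨T, G, K, Om, Om0, D⟩ := dat x
      exact wf m m' φ lg a hi b T G K Om Om0 x o j cf D)
  have all : ∀ x q q' : V, ‖q‖ = 1 → ‖q'‖ = 1 → (φ (x, q)).1 = (φ (x, q')).1 := by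
    intro x q q' hq hq'
    have c : ∀ q : V, ‖q‖ = 1 → Continuous fun x : V => (φ (x, q)).1 := fun q hq =>
      (cf.cont.comp_continuous (f := fun x : V => (x, q)) (by fun_prop)
        fun _ e => by simp [show q = 0 from e] at hq).fst
    refine congrFun ((c q hq).ae_eq_iff_eq volume (c q' hq') |>.1 (k.mono fun x hx => ?_)) x
    obtain ⟨T, G, K, Om, Om0, D⟩ := dat x
    exact en m m' φ lg a hi b T G K Om Om0 x o j cf D hx q q' hq hq'
  refine fin g h C C' Γ Λ Φ Ψ ρ F' qg qh cg ch dΓ dΛ cj' m m' o j o' j' l l'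
    (mnp h C' Λ Ψ qh ch a ha kh') fun p q e => ?_
  have := all p.1.1 _ _ (norm_S o l.orth p) (norm_S o l.orth q)
  have e1 := rp 1 p one_ne_zero
  have e2 := rp 1 q one_ne_zero
  simp only [dn, one_smul] at e1 e2
  rw [e1] at this
  rw [e] at this
  rw [e2] at this
  exact this

end Pool.Agent.MP_3ee8cb_gt.CZ
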